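import Pool.Agent.Y166.LT.DefsF
import Pool.Agent.Y215.MC.VarX

/-!
# The charts of the bundle by permutations
-/

set_option autoImplicit false
set_option linter.unusedSectionVars false

namespace Pool.Agent.Y211.LT.FCH

open MvPolynomial Pool.Agent.Y166.GM Pool.Agent.Y166.SM Pool.Agent.Y198.MC Pool.Agent.Y215.MC
open Pool.Agent.Y166.LT

section
variable {A : Type} [CommRing A] {r : ℕ}

theorem Up_0 (π : Equiv.Perm (Fin (r + 2))) (y : Ch r → A) : Up π y (π 0) = 1 := by
  show U0 y (π.symm (π 0)) = 1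
  rw [Equiv.symm_apply_apply]
  rfl

theorem Up_1 (π : Equiv.Perm (Fin (r + 2))) (y : Ch r → A) : Up π y (π 1) = 0 := by
  show U0 y (π.symm (π 1)) = 0
  rw [Equiv.symm_apply_apply]
  rfl

theorem Up_s (π : Equiv.Perm (Fin (r + 2))) (y : Ch r → A) (i : Fin r) :
    Up π y (π i.succ.succ) = y (.inl (i, 0)) := by
  show U0 y (π.symm (π i.succ.succ)) = _
  rw [Equiv.symm_apply_apply]
  rfl

theorem Vp_0 (π : Equiv.Perm (Fin (r + 2))) (y : Ch r → A) : Vp π y (π 0) = 0 := by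
  show V0 y (π.symm (π 0)) = 0
  rw [Equiv.symm_apply_apply]
  rfl

theorem Vp_1 (π : Equiv.Perm (Fin (r + 2))) (y : Ch r → A) : Vp π y (π 1) = 1 := by
  show V0 y (π.symm (π 1)) = 1
  rw [Equiv.symm_apply_apply]
  rfl

theorem Vp_s (π : Equiv.Perm (Fin (r + 2))) (y : Ch r → A) (i : Fin r) :
    Vp π y (π i.succ.succ) = y (.inl (i, 1)) := by
  show V0 y (π.symm (π i.succ.succ)) = _
  rw [Equiv.symm_apply_apply]
  rfl

theorem perm_cases (π : Equiv.Perm (Fin (r + 2))) {P : Fin (r + 2) → Prop} (h0 : P (π 0))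
    (h1 : P (π 1)) (h2 : ∀ i : Fin r, P (π i.succ.succ)) (a : Fin (r + 2)) : P a := by
  have h : ∀ b : Fin (r + 2), P (π b) := by
    intro b
    refine Fin.cases h0 (fun b => ?_) b
    exact Fin.cases h1 (fun b => h2 b) b
  have h3 := h (π.symm a)
  rwa [Equiv.apply_symm_apply] at h3

theorem eq_Up (π : Equiv.Perm (Fin (r + 2))) (y : Ch r → A) (z : Fin (r + 2) → A)
    (h0 : z (π 0) = 1) (h1 : z (π 1) = 0) (h2 : ∀ i : Fin r, z (π i.succ.succ) = y (.inl (i, 0))) :
    z = Up π y := by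
  funext a
  refine perm_cases π (P := fun a => z a = Up π y a) ?_ ?_ ?_ a
  · rw [h0, Up_0]
  · rw [h1, Up_1]
  · intro i
    rw [h2, Up_s]

theorem eq_Vp (π : Equiv.Perm (Fin (r + 2))) (y : Ch r → A) (z : Fin (r + 2) → A)
    (h0 : z (π 0) = 0) (h1 : z (π 1) = 1) (h2 : ∀ i : Fin r, z (π i.succ.succ) = y (.inl (i, 1))) :
    z = Vp π y := by
  funext a
  refine perm_cases π (P := fun a => z a = Vp π y a) ?_ ?_ ?_ a
  · rw [h0, Vp_0]
  · rw [h1, Vp_1]
  · intro i
    rw [h2, Vp_s]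

theorem cm_m (m : Fin 4) (x : Fin 3 → A) : cm m x m = 1 := by
  unfold cm
  exact Fin.insertNth_apply_same (α := fun _ => A) m 1 x

theorem cm_s (m : Fin 4) (x : Fin 3 → A) (n : Fin 3) : cm m x (m.succAbove n) = x n := by
  unfold cm
  exact Fin.insertNth_apply_succAbove (α := fun _ => A) m 1 x n

theorem eq_cm (m : Fin 4) (x : Fin 3 → A) (z : Fin 4 → A) (h0 : z m = 1)
    (h1 : ∀ n, z (m.succAbove n) = x n) : z = cm m x := by
  funext n
  rcases Fin.eq_self_or_eq_succAbove m n with h | ⟨b, h⟩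
  · rw [h, h0, cm_m]
  · rw [h, h1, cm_s]

theorem map_Up {B : Type} [CommRing B] (f : A →+* B) (π : Equiv.Perm (Fin (r + 2)))
    (y : Ch r → A) : (fun a => f (Up π y a)) = Up π fun i => f (y i) := by
  apply eq_Up
  · rw [Up_0, map_one]
  · rw [Up_1, map_zero]
  · intro i
    rw [Up_s]

theorem map_Vp {B : Type} [CommRing B] (f : A →+* B) (π : Equiv.Perm (Fin (r + 2)))
    (y : Ch r → A) : (fun a => f (Vp π y a)) = Vp π fun i => f (y i) := by
  apply eq_Vp
  · rw [Vp_0, map_zero]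
  · rw [Vp_1, map_one]
  · intro i
    rw [Vp_s]

theorem map_cm {B : Type} [CommRing B] (f : A →+* B) (m : Fin 4) (x : Fin 3 → A) :
    (fun a => f (cm m x a)) = cm m fun i => f (x i) := by
  apply eq_cm
  · rw [cm_m, map_one]
  · intro n
    rw [cm_s]

theorem cub_tt (π : Equiv.Perm (Fin (r + 2))) (y : Ch r → A) (c : Fin 4 → A) (n : Fin 4) :
    cub (Up π y) (Vp π y) c (tt (π 0) (π 1) n) = c n := by
  fin_cases n <;> simp [tt, cub, Up_0, Up_1, Vp_0, Vp_1]

/-- The point of the chart. -/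
def pC (α : Equiv.Perm (Fin (r + 2)) × Fin 4) (y : Ch r → A) : Co (r + 2) → A :=
  ptX (Up α.1 y) (Vp α.1 y) (cm α.2 fun n => y (.inr n))

theorem pC_j (α : Equiv.Perm (Fin (r + 2)) × Fin 4) (y : Ch r → A) : pC α y (jF α) = 1 := by
  show wdg (Up α.1 y) (Vp α.1 y) (α.1 0, α.1 1) * cub (Up α.1 y) (Vp α.1 y) _
    (tt (α.1 0) (α.1 1) α.2) = 1
  rw [cub_tt, cm_m]
  simp [wdg, Up_0, Up_1, Vp_0, Vp_1]

theorem pC_r (α : Equiv.Perm (Fin (r + 2)) × Fin 4) (y : Ch r → A) (i : Ch r) :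
    pC α y (rF α i) = y i := by
  rcases i with ⟨i, b⟩ | n
  · show wdg (Up α.1 y) (Vp α.1 y) (if b = 0 then (α.1 i.succ.succ, α.1 1)
      else (α.1 0, α.1 i.succ.succ)) * cub (Up α.1 y) (Vp α.1 y) _ (tt (α.1 0) (α.1 1) α.2) = _
    rw [cub_tt, cm_m, mul_one]
    have hb : b = 0 ∨ b = 1 := by omega
    rcases hb with h | h
    · subst h
      rw [if_pos rfl]
      simp [wdg, Up_1, Vp_1, Up_s]
    · subst h
      rw [if_neg (by decide)]
      simp [wdg, Up_0, Vp_0, Vp_s]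
  · show wdg (Up α.1 y) (Vp α.1 y) (α.1 0, α.1 1) * cub (Up α.1 y) (Vp α.1 y) _
      (tt (α.1 0) (α.1 1) (α.2.succAbove n)) = _
    rw [cub_tt, cm_s]
    simp [wdg, Up_0, Up_1, Vp_0, Vp_1]

theorem pC_map {B : Type} [CommRing B] (f : A →+* B) (α : Equiv.Perm (Fin (r + 2)) × Fin 4)
    (y : Ch r → A) (t : Co (r + 2)) : f (pC α y t) = pC α (fun i => f (y i)) t := by
  unfold pC
  rw [ptX_map, map_Up, map_Vp, map_cm]

end

section
variable {k : Type} [Field k] {r : ℕ}

theorem vF_eval (α : Equiv.Perm (Fin (r + 2)) × Fin 4) (c : Ch r → k) (t : Co (r + 2)) :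
    eval c (vF k α t) = pC α c t := by
  have h := pC_map (eval c) α (X : Ch r → MvPolynomial (Ch r) k) t
  simp only [eval_X] at h
  exact h

theorem chart (α : Equiv.Perm (Fin (r + 2)) × Fin 4) :
    IsChart (XX k (r + 2)) (jF α) (rF α) (vF k α) := by
  constructor
  · exact pC_j α _
  · exact pC_r α _
  · intro c
    have h1 : (fun j => eval c (vF k α j)) = pC α c := by
      funext t
      exact vF_eval α c t
    rw [h1]
    have h2 : pC α c ≠ 0 := by
      intro h
      have h3 := pC_j α c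
      rw [h] at h3
      exact zero_ne_one h3
    obtain ⟨z, hz⟩ := exists_rep h2
    exact ⟨z, ⟨_, _, _, hz⟩, hz⟩
  · intro z hz V hV h0 n
    obtain ⟨u', v', c', hl', hG', hq', hpt'⟩ := X.chart_gen hz hV (jF α) h0
    have h3 := hpt' n
    rw [div_eq_iff h0, mul_comm] at h3
    rw [h3, vF_eval]
    congr 1
    have hone : V (jF α) / V (jF α) = 1 := div_self h0
    unfold pC
    have hU : X.Uj (jF α) (fun i => V i / V (jF α)) =
        Up α.1 fun i => V (rF α i) / V (jF α) := by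
      apply eq_Up
      · exact hone
      · show V ((α.1 1, α.1 1), tt (α.1 0) (α.1 1) α.2) / V (jF α) = 0
        rw [hq']
        simp [wdg, mul_comm]
      · intro i
        rfl
    have hW : X.Wj (jF α) (fun i => V i / V (jF α)) =
        Vp α.1 fun i => V (rF α i) / V (jF α) := by
      apply eq_Vp
      · show V ((α.1 0, α.1 0), tt (α.1 0) (α.1 1) α.2) / V (jF α) = 0
        rw [hq']
        simp [wdg, mul_comm]
      · exact hone
      · intro i
        rfl
    have hC : X.Cj (jF α) (fun i => V i / V (jF α)) =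
        cm α.2 fun n => V (rF α (.inr n)) / V (jF α) := by
      apply eq_cm
      · exact hone
      · intro n
        rfl
    rw [hU, hW, hC]

theorem exists_perm {i j : Fin (r + 2)} (hij : i ≠ j) :
    ∃ π : Equiv.Perm (Fin (r + 2)), π 0 = i ∧ π 1 = j := by
  classical
  refine ⟨Equiv.swap (Equiv.swap 0 i 1) j * Equiv.swap 0 i, ?_, ?_⟩
  · rw [Equiv.Perm.mul_apply, Equiv.swap_apply_left]
    apply Equiv.swap_apply_of_ne_of_ne _ hij
    intro h
    have h1 : Equiv.swap 0 i 0 = Equiv.swap 0 i 1 := by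
      rw [Equiv.swap_apply_left]
      exact h
    have h2 := (Equiv.swap 0 i).injective h1
    have h3 := congrArg Fin.val h2
    simp at h3
  · rw [Equiv.Perm.mul_apply, Equiv.swap_apply_left]

theorem covers (z : PP k (Co (r + 2))) (hz : z ∈ XX k (r + 2)) :
    ∃ α : Equiv.Perm (Fin (r + 2)) × Fin 4, z.rep (jF α) ≠ 0 := by
  have hrep := rep_rep z
  obtain ⟨j1, hj1⟩ : ∃ j0, z.rep j0 ≠ 0 := by
    by_contra hcon
    push Not at hcon
    exact hrep.ne_zero (funext hcon)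
  obtain ⟨⟨i, j⟩, t⟩ := j1
  obtain ⟨u, v, c, hl, hG, hq, hpt⟩ := X.chart_gen hz hrep ((i, j), t) hj1
  have hij : i ≠ j := by
    rintro rfl
    apply hl
    simp [wdg, mul_comm]
  have hn := nrm_of u v i j hl
  obtain ⟨m, hm⟩ : ∃ m, cub u v c (tt i j m) ≠ 0 := by
    by_contra hcon
    push Not at hcon
    apply hG
    show cub u v c t = 0
    rw [hn.cub c t]
    have h0 := hcon 0
    have h1 := hcon 1
    have h2 := hcon 2
    have h3 := hcon 3
    simp only [tt, Matrix.cons_val_zero, Matrix.cons_val_one, Matrix.cons_val] at h0 h1 h2 h3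
    rw [h0, h1, h2, h3]
    simp [cub]
  obtain ⟨π, hπ0, hπ1⟩ := exists_perm hij
  refine ⟨(π, m), ?_⟩
  show z.rep ((π 0, π 1), tt (π 0) (π 1) m) ≠ 0
  rw [hπ0, hπ1]
  intro h
  have h1 := hq ((i, j), tt i j m)
  rw [h, zero_div] at h1
  have h2 : wdg u v (i, j) / wdg u v (i, j) * (cub u v c (tt i j m) / cub u v c t) ≠ 0 := by
    rw [div_self hl, one_mul]
    exact div_ne_zero hm hG
  exact h2 h1.symm

end

theorem done : S_FCH := by
  intro k _ r _
  exact ⟨fun α => chart α, fun z hz => covers z hz⟩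

end Pool.Agent.Y211.LT.FCH
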