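import Pool.Agent.Y211.LT.Base
import Pool.Agent.Y166.GM.Basic

/-! The ramification divisor is not unramified. -/

set_option autoImplicit false

namespace Pool.Agent.Y211.LT.RAM

open MvPolynomial Pool.Agent.Y166.GM Pool.Agent.Y166.SM Pool.Agent.Y198.MC Pool.Agent.Y166.LT
open Pool.Agent.Y211.LT.Base
open FF (Place)

section
variable {k K : Type} [Field k] [Field K] [Algebra k K] {r : ℕ}

lemma reg_aeval (v : Place k K) {t : Ch r → K} (ht : ∀ i, v.Reg (t i))
    (F : MvPolynomial (Ch r) k) : v.Reg (aeval t F) := by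
  induction F using MvPolynomial.induction_on with
  | C a => rw [aeval_C]; exact v.reg_const a
  | add p q hp hq => rw [map_add]; exact v.reg_add hp hq
  | mul_X p i hp => rw [map_mul, aeval_X]; exact v.reg_mul hp (ht i)

lemma ord_dec {t : Ch r → K} (ht : AlgebraicIndependent k t) (v : Place k K)
    {h : MvPolynomial (Ch r) k} (hi : Irreducible h)
    (hv : ∀ F : MvPolynomial (Ch r) k, ¬ h ∣ F → v.ord (aeval t F) = 0)
    (F : MvPolynomial (Ch r) k) (hF : F ≠ 0) :
    ∃ e : ℕ, h ^ e ∣ F ∧ v.ord (aeval t F) = e * v.ord (aeval t h) := by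
  obtain ⟨e, G, hG, rfl⟩ := WfDvdMonoid.max_power_factor hF hi
  refine ⟨e, dvd_mul_right _ _, ?_⟩
  have h0 : ∀ P : MvPolynomial (Ch r) k, P ≠ 0 → aeval t P ≠ 0 := by
    intro P hP h1
    exact hP ((algebraicIndependent_iff.mp ht) P h1)
  rw [map_mul, map_pow, v.ord_mul (pow_ne_zero _ (h0 _ hi.ne_zero))
    (h0 _ (right_ne_zero_of_mul hF)), v.ord_pow, hv G hG, add_zero]

lemma dsc_ne [CharZero k] : dsc k r ≠ 0 := by
  intro h0
  have := congrArg (eval (fun i : Ch r => if i = .inr 2 then (1 : k) else 0)) h0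
  simp [dsc] at this

lemma dsc_eq [CharZero K] (Y : Ch r → K) :
    27 * aeval (sc Y) (dsc k r) = -4 * aeval Y (rho k r) ^ 2 * (Y (.inr 1) ^ 2 - Y (.inr 2)) := by
  simp only [dsc, rho, sc, map_add, map_sub, map_mul, map_pow, map_ofNat, aeval_X]
  simp
  field_simp
  ring

end

theorem done : S_CENT → S_INT → S_RAM := by
  intro hC hI k K _ _ _ _ r Y x hctx v hun hcen
  have hK : CharZero K := charZero_of_injective_algebraMap (algebraMap k K).injective
  have hs : AlgebraicIndependent k (sc Y) := sc_ind hctx.ind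
  have hne : ∀ P : MvPolynomial (Ch r) k, P ≠ 0 → aeval (sc Y) P ≠ 0 := by
    intro P hP h1
    exact hP ((algebraicIndependent_iff.mp hs) P h1)
  have hneY : ∀ P : MvPolynomial (Ch r) k, P ≠ 0 → aeval Y P ≠ 0 := by
    intro P hP h1
    exact hP ((algebraicIndependent_iff.mp hctx.ind) P h1)
  have hj0 := hcen.1
  have hreg : ∀ i, v.Reg (sc Y i) := by
    intro i
    have := hcen.2 (Pool.Agent.Y198.MC.rrX r i)
    rwa [quot hctx, vvX_rrX] at this
  have hxe : x = fun j => x (j0 r) * aeval (sc Y) (vvX k r j) := by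
    funext j
    rw [← quot hctx]
    field_simp
  have hval : ∀ (m : ℕ) (A : MvPolynomial (Co (r + 2)) k), A.IsHomogeneous m →
      aeval x A = x (j0 r) ^ m * aeval (sc Y) (bind₁ (vvX k r) A) := by
    intro m A hA
    conv_lhs => rw [hxe]
    rw [aeval_smul_homog hA, aeval_bind₁]
  obtain ⟨⟨φ, hφ, hφ1⟩, y, hy, hyind⟩ := hun
  have hyy : ∀ i, ∃ A B : MvPolynomial (Ch r) k, aeval (sc Y) B ≠ 0 ∧
      v.ord (aeval (sc Y) B) = 0 ∧ y i = aeval (sc Y) A / aeval (sc Y) B := by
    intro i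
    obtain ⟨m, A, B, hA, hB, hB0, he, hCr⟩ := hy i
    refine ⟨bind₁ (vvX k r) A, bind₁ (vvX k r) B, ?_, ?_, ?_⟩
    · intro h0
      apply hB0
      rw [hval m B hB, h0, mul_zero]
    · have hB1 : aeval (sc Y) (bind₁ (vvX k r) B) ≠ 0 := by
        intro h0
        apply hB0
        rw [hval m B hB, h0, mul_zero]
      have h1 := (v.reg_iff hB1).1 (reg_aeval v hreg _)
      have h2 := hCr (X (j0 r) ^ m) (isHomogeneous_X_pow (R := k) (j0 r) m)
      have e : aeval x ((X (j0 r) : MvPolynomial (Co (r + 2)) k) ^ m) / aeval x B =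
          (aeval (sc Y) (bind₁ (vvX k r) B))⁻¹ := by
        rw [hval m B hB, map_pow, aeval_X]
        field_simp
      rw [e, v.reg_iff (inv_ne_zero hB1), v.ord_inv] at h2
      omega
    · rw [he, hval m A hA, hval m B hB]
      have : x (j0 r) ^ m ≠ 0 := pow_ne_zero _ hj0
      rw [mul_div_mul_left _ _ this]
  have hφ0 : φ ≠ 0 := by
    rintro rfl
    rw [v.ord_zero] at hφ1
    exact absurd hφ1 (by norm_num)
  obtain ⟨P, Q, hPQ⟩ := (IntermediateField.mem_adjoin_range_iff k (sc Y) φ).mp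
    (ratX_le hctx hj0 hφ)
  have hP1 : aeval (sc Y) P ≠ 0 := by
    intro h0; apply hφ0; rw [hPQ, h0, zero_div]
  have hQ1 : aeval (sc Y) Q ≠ 0 := by
    intro h0; apply hφ0; rw [hPQ, h0, div_zero]
  have hP0 : P ≠ 0 := by rintro rfl; simp at hP1
  have hQ0 : Q ≠ 0 := by rintro rfl; simp at hQ1
  rw [hPQ, v.ord_div hP1 hQ1] at hφ1
  rcases hC k K (Ch r) (sc Y) v (2 * r + 3 - 1) hs hreg
      (by simp [Ch]; omega) y hyy hyind with h | ⟨h, hi, hpos, hv⟩
  · rw [h P, h Q] at hφ1
    omega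
  · by_contra hcon
    obtain ⟨a, _, ha⟩ := ord_dec hs v hi hv P hP0
    obtain ⟨b, _, hb⟩ := ord_dec hs v hi hv Q hQ0
    have h1 : v.ord (aeval (sc Y) h) = 1 := by
      have hd : v.ord (aeval (sc Y) h) ∣ 1 := ⟨(a : ℤ) - b, by rw [← hφ1, ha, hb]; ring⟩
      exact Int.eq_one_of_dvd_one hpos.le hd
    have hYreg := hI k K r Y x hctx v hcen
    have hR0 : aeval Y (rho k r) ≠ 0 := by
      intro h0
      rw [h0, v.ord_zero] at hcon
      exact hcon rfl
    have hR1 := (v.reg_iff hR0).1 (reg_aeval v hYreg _)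
    have heq := dsc_eq (k := k) Y
    have hD0 := hne _ (dsc_ne (k := k) (r := r))
    have h27 : (27 : K) ≠ 0 := by norm_num
    have h4 : (-4 : K) ≠ 0 := by norm_num
    have hT0 : Y (.inr 1) ^ 2 - Y (.inr 2) ≠ 0 := by
      intro h0
      rw [h0, mul_zero] at heq
      exact (mul_ne_zero h27 hD0) heq
    have hT1 := (v.reg_iff hT0).1 (by
      have := reg_aeval v hYreg (X (.inr 1) ^ 2 - X (.inr 2) : MvPolynomial (Ch r) k)
      simpa using this)
    have ho := congrArg v.ord heq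
    have o27 : v.ord (27 : K) = 0 := by
      have := v.ord_const (c := (27 : k)) (by norm_num)
      rwa [map_ofNat] at this
    have o4 : v.ord (-4 : K) = 0 := by
      have := v.ord_const (c := (-4 : k)) (by norm_num)
      rwa [map_neg, map_ofNat] at this
    rw [v.ord_mul h27 hD0, v.ord_mul (mul_ne_zero h4 (pow_ne_zero 2 hR0)) hT0,
      v.ord_mul h4 (pow_ne_zero 2 hR0), v.ord_pow, o27, o4] at ho
    obtain ⟨e, he, he2⟩ := ord_dec hs v hi hv _ (dsc_ne (k := k) (r := r))
    rw [he2, h1] at ho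
    have h2e : 2 ≤ e := by
      push_cast at ho
      omega
    exact sqfree h hi ((pow_dvd_pow h h2e).trans he)

end Pool.Agent.Y211.LT.RAM
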