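import Pool.Agent.Y166.LT.Stm

/-! The chart of `X` in terms of the chart of the covering; the discriminant is square free. -/

set_option autoImplicit false

namespace Pool.Agent.Y211.LT.Base

open MvPolynomial Pool.Agent.Y166.GM Pool.Agent.Y166.SM Pool.Agent.Y198.MC Pool.Agent.Y166.LT
open FF (Place)

section
variable {k K : Type} [Field k] [Field K] [Algebra k K] {r : ℕ}

/-- the coordinates of the chart of `X` -/
def sc (Y : Ch r → K) : Ch r → K
  | .inl p => Y (.inl p)
  | .inr j => ![(Y (.inr 0) + 2 * Y (.inr 1)) / 3,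
      (2 * Y (.inr 0) * Y (.inr 1) + Y (.inr 2)) / 3, Y (.inr 0) * Y (.inr 2)] j

lemma aeval_U0 (s : Ch r → K) (i : Fin (r + 2)) :
    aeval s (U0 (X : Ch r → MvPolynomial (Ch r) k) i) = U0 s i := by
  refine Fin.cases ?_ (fun i => Fin.cases ?_ (fun i => ?_) i) i <;> simp [U0]

lemma aeval_V0 (s : Ch r → K) (i : Fin (r + 2)) :
    aeval s (V0 (X : Ch r → MvPolynomial (Ch r) k) i) = V0 s i := by
  refine Fin.cases ?_ (fun i => Fin.cases ?_ (fun i => ?_) i) i <;> simp [V0]

lemma aeval_vvX (s : Ch r → K) (j : Co (r + 2)) :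
    aeval s (vvX k r j) = ptX (U0 s) (V0 s) ![1, s (.inr 0), s (.inr 1), s (.inr 2)] j := by
  simp [vvX, ptX, wdg, cub, aeval_U0, aeval_V0]

lemma U0_sc (Y : Ch r → K) : U0 (sc Y) = U0 Y := rfl

lemma V0_sc (Y : Ch r → K) : V0 (sc Y) = V0 Y := rfl

lemma xOf_eq [CharZero K] (Y : Ch r → K) (j : Co (r + 2)) :
    xOf Y j = 3 * aeval (sc Y) (vvX k r j) := by
  have h3 : (3 : K) ≠ 0 := by norm_num
  rw [aeval_vvX, U0_sc, V0_sc]
  simp only [xOf, ptX, cub, mulc, sc]
  simp
  field_simp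

lemma vvX_j0 (s : Ch r → K) : aeval s (vvX k r (j0 r)) = 1 := by
  rw [aeval_vvX]
  simp [ptX, wdg, cub, j0, U0, V0]

lemma vvX_rrX (s : Ch r → K) (i : Ch r) : aeval s (vvX k r (Pool.Agent.Y198.MC.rrX r i)) = s i := by
  rw [aeval_vvX]
  rcases i with ⟨i, j⟩ | j
  · fin_cases j <;> simp [ptX, wdg, cub, Pool.Agent.Y198.MC.rrX, U0, V0]
  · fin_cases j <;> simp [ptX, wdg, cub, Pool.Agent.Y198.MC.rrX, U0, V0]

lemma quot [CharZero K] {Y : Ch r → K} {x : Co (r + 2) → K} (h : Ctx k K r Y x) (j : Co (r + 2)) :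
    x j / x (j0 r) = aeval (sc Y) (vvX k r j) := by
  obtain ⟨c, hc, rfl⟩ := h.eq
  have h3 : (3 : K) ≠ 0 := by norm_num
  simp only [xOf_eq (k := k), vvX_j0]
  field_simp

lemma ratX_le [CharZero K] {Y : Ch r → K} {x : Co (r + 2) → K} (h : Ctx k K r Y x)
    (h0 : x (j0 r) ≠ 0) : ratX k x ≤ IntermediateField.adjoin k (Set.range (sc Y)) := by
  unfold ratX
  rw [IntermediateField.adjoin_le_iff]
  rintro _ ⟨⟨p, q⟩, rfl⟩
  have e : x p / x q = (x p / x (j0 r)) / (x q / x (j0 r)) := by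
    by_cases hq : x q = 0
    · simp [hq]
    · field_simp
  simp only
  rw [e, quot h, quot h]
  have hm : ∀ F : MvPolynomial (Ch r) k,
      aeval (sc Y) F ∈ IntermediateField.adjoin k (Set.range (sc Y)) := by
    intro F
    have h1 : aeval (sc Y) F ∈ Algebra.adjoin k (Set.range (sc Y)) := by
      rw [Algebra.adjoin_range_eq_range_aeval]
      exact ⟨F, rfl⟩
    exact IntermediateField.algebra_adjoin_le_adjoin k _ h1
  exact div_mem (hm _) (hm _)

/-- the substitution -/
noncomputable def sg (k : Type) [Field k] (r : ℕ) : Ch r → MvPolynomial (Ch r) k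
  | .inl p => X (.inl p)
  | .inr j => ![C (3⁻¹) * (X (.inr 0) + 2 * X (.inr 1)),
      C (3⁻¹) * (2 * X (.inr 0) * X (.inr 1) + X (.inr 2)), X (.inr 0) * X (.inr 2)] j

lemma aeval_sg (Y : Ch r → K) (i : Ch r) : aeval Y (sg k r i) = sc Y i := by
  have e3 : algebraMap k K 3⁻¹ = 3⁻¹ := by rw [map_inv₀, map_ofNat]
  rcases i with p | j
  · simp [sg, sc]
  · fin_cases j
    · simp only [sg, sc, Fin.zero_eta, Matrix.cons_val_zero, map_mul, map_add, aeval_X, map_ofNat,
        aeval_C, e3]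
      rw [div_eq_mul_inv, mul_comm]
    · simp only [sg, sc, Fin.mk_one, Matrix.cons_val_one, Matrix.cons_val_zero, map_mul, map_add,
        aeval_X, map_ofNat, aeval_C, e3]
      rw [div_eq_mul_inv, mul_comm]
    · simp [sg, sc]

/-- the substitution is surjective over algebraically closed fields -/
lemma sc_surj [CharZero K] [IsAlgClosed K] (z : Ch r → K) : ∃ y : Ch r → K, sc y = z := by
  have h2 : (2 : K) ≠ 0 := by norm_num
  have h3 : (3 : K) ≠ 0 := by norm_num
  have hP : (Polynomial.X ^ 3 - Polynomial.C (3 * z (.inr 0)) * Polynomial.X ^ 2 +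
      Polynomial.C (3 * z (.inr 1)) * Polynomial.X - Polynomial.C (z (.inr 2)) :
      Polynomial K).degree ≠ 0 := by
    have : (Polynomial.X ^ 3 - Polynomial.C (3 * z (.inr 0)) * Polynomial.X ^ 2 +
        Polynomial.C (3 * z (.inr 1)) * Polynomial.X - Polynomial.C (z (.inr 2)) :
        Polynomial K).degree = 3 := by
      compute_degree!
    rw [this]
    decide
  obtain ⟨ξ, hξ⟩ := IsAlgClosed.exists_root _ hP
  have hξ' : ξ ^ 3 - 3 * z (.inr 0) * ξ ^ 2 + 3 * z (.inr 1) * ξ - z (.inr 2) = 0 := by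
    simpa [Polynomial.IsRoot] using hξ
  refine ⟨fun i => match i with
    | .inl p => z (.inl p)
    | .inr j => ![ξ, (3 * z (.inr 0) - ξ) / 2,
        3 * z (.inr 1) - 2 * ξ * ((3 * z (.inr 0) - ξ) / 2)] j, ?_⟩
  funext i
  rcases i with p | j
  · rfl
  · fin_cases j
    · simp [sc]
      field_simp
      ring
    · simp [sc]
    · simp [sc]
      field_simp
      linear_combination hξ'

/-- the substitution is dominant -/
lemma sc_ind [CharZero k] {Y : Ch r → K} (hY : AlgebraicIndependent k Y) :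
    AlgebraicIndependent k (sc Y) := by
  rw [algebraicIndependent_iff]
  intro F hF
  have h1 : aeval Y (bind₁ (sg k r) F) = 0 := by
    rw [aeval_bind₁]
    simpa [aeval_sg] using hF
  have h2 : bind₁ (sg k r) F = 0 := (algebraicIndependent_iff.mp hY) _ h1
  have hc : CharZero (AlgebraicClosure k) :=
    charZero_of_injective_algebraMap (algebraMap k (AlgebraicClosure k)).injective
  have h4 : ∀ z : Ch r → AlgebraicClosure k, aeval z F = 0 := by
    intro z
    obtain ⟨y, rfl⟩ := sc_surj z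
    have h5 : aeval y (bind₁ (sg k r) F) = 0 := by rw [h2]; simp
    rw [aeval_bind₁] at h5
    simpa [aeval_sg] using h5
  have h5 : map (algebraMap k (AlgebraicClosure k)) F = 0 := by
    apply MvPolynomial.funext
    intro z
    rw [eval_map, ← aeval_def, h4 z]
    simp
  exact (map_eq_zero_iff _ (map_injective _ (algebraMap k (AlgebraicClosure k)).injective)).mp h5

end

/-- the discriminant -/
noncomputable def dsc (k : Type) [Field k] (r : ℕ) : MvPolynomial (Ch r) k :=
  X (.inr 2) ^ 2 + 4 * X (.inr 0) ^ 3 * X (.inr 2) - 6 * X (.inr 0) * X (.inr 1) * X (.inr 2) +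
    4 * X (.inr 1) ^ 3 - 3 * X (.inr 0) ^ 2 * X (.inr 1) ^ 2

section
variable {k : Type} [Field k] [CharZero k] {r : ℕ}

lemma sqfree (h : MvPolynomial (Ch r) k) (hi : Irreducible h) (hd : h ^ 2 ∣ dsc k r) : False := by
  have hp : Prime h := hi.prime
  have hd1 : h ∣ dsc k r := (dvd_pow_self h two_ne_zero).trans hd
  have hd2 : h ∣ pderiv (.inr 2) (dsc k r) := by
    obtain ⟨g, hg⟩ := hd
    rw [hg]
    simp only [Derivation.leibniz, Derivation.leibniz_pow, smul_eq_mul]
    refine dvd_add ⟨h * pderiv (.inr 2) g, by ring⟩ ?_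
    exact ⟨g * (2 * pderiv (.inr 2) h), by simp; ring⟩
  have e1 : pderiv (.inr 2) (dsc k r) =
      2 * X (.inr 2) + 4 * X (.inr 0) ^ 3 - 6 * X (.inr 0) * X (.inr 1) := by
    have e4 : (4 : MvPolynomial (Ch r) k) = C 4 := (map_ofNat C 4).symm
    have e6 : (6 : MvPolynomial (Ch r) k) = C 6 := (map_ofNat C 6).symm
    have e3 : (3 : MvPolynomial (Ch r) k) = C 3 := (map_ofNat C 3).symm
    rw [dsc, e4, e6, e3]
    simp only [map_add, map_sub, Derivation.leibniz, Derivation.leibniz_pow, smul_eq_mul,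
      pderiv_X, pderiv_C]
    simp
  rw [e1] at hd2
  have h3 : h ∣ (X (.inr 0) ^ 2 - X (.inr 1)) ^ 3 := by
    have h4 : h ∣ C (-16 : k) * (X (.inr 0) ^ 2 - X (.inr 1)) ^ 3 := by
      have e : C (-16 : k) * (X (.inr 0) ^ 2 - X (.inr 1)) ^ 3 = 4 * dsc k r -
          (2 * X (.inr 2) + 4 * X (.inr 0) ^ 3 - 6 * X (.inr 0) * X (.inr 1)) *
          (2 * X (.inr 2) + 4 * X (.inr 0) ^ 3 - 6 * X (.inr 0) * X (.inr 1)) := by
        have e16 : (C (-16 : k) : MvPolynomial (Ch r) k) = -16 := by rw [map_neg, map_ofNat]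
        rw [e16, dsc]
        ring
      rw [e]
      exact dvd_sub (hd1.mul_left _) (hd2.mul_left _)
    rcases hp.dvd_or_dvd h4 with h5 | h5
    · exfalso
      apply hp.not_isUnit
      refine isUnit_of_dvd_unit h5 ?_
      exact (isUnit_iff_ne_zero.mpr (by norm_num : (-16 : k) ≠ 0)).map C
    · exact h5
  have h4 : h ∣ X (.inr 0) ^ 2 - X (.inr 1) := hp.dvd_of_dvd_pow h3
  obtain ⟨g, hg⟩ := h4
  have hp0 : (X (.inr 0) ^ 2 - X (.inr 1) : MvPolynomial (Ch r) k) ≠ 0 := by
    intro h0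
    have := congrArg (eval (fun i : Ch r => if i = .inr 1 then (1 : k) else 0)) h0
    simp at this
  have hh0 : h ≠ 0 := hp.ne_zero
  have hg0 : g ≠ 0 := by
    rintro rfl
    rw [mul_zero] at hg
    exact hp0 hg
  have hdeg : degreeOf (.inr 2) (X (.inr 0) ^ 2 - X (.inr 1) : MvPolynomial (Ch r) k) = 0 := by
    rw [← Nat.le_zero]
    refine (degreeOf_sub_le _ _ _).trans ?_
    rw [degreeOf_X]
    refine max_le ?_ (by simp)
    refine (degreeOf_pow_le _ _ _).trans ?_
    rw [degreeOf_X]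
    simp
  rw [hg, degreeOf_mul_eq hh0 hg0] at hdeg
  have hh : degreeOf (.inr 2) h = 0 := by omega
  have hv : (.inr 2 : Ch r) ∉ h.vars := by
    rw [vars_def, Multiset.mem_toFinset, ← Multiset.count_eq_zero]
    rw [degreeOf_def] at hh
    convert hh
  have hz : pderiv (.inr 2) h = 0 := pderiv_eq_zero_of_notMem_vars hv
  obtain ⟨g', hg'⟩ := hd2
  have h6 := congrArg (pderiv (.inr 2)) hg'
  have e4 : (4 : MvPolynomial (Ch r) k) = C 4 := (map_ofNat C 4).symm
  have e6 : (6 : MvPolynomial (Ch r) k) = C 6 := (map_ofNat C 6).symm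
  have e2 : (2 : MvPolynomial (Ch r) k) = C 2 := (map_ofNat C 2).symm
  rw [e4, e6, e2] at h6
  simp only [map_add, map_sub, Derivation.leibniz, Derivation.leibniz_pow, smul_eq_mul,
      pderiv_X, pderiv_C, hz, mul_zero, add_zero] at h6
  simp at h6
  apply hp.not_isUnit
  refine isUnit_of_dvd_unit (Dvd.intro _ h6.symm) ?_
  exact (isUnit_iff_ne_zero.mpr (by norm_num : (2 : k) ≠ 0)).map C

end

end Pool.Agent.Y211.LT.Base
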